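import Mathlib
import Pool.Agent.Lib.MP_24384b_lc.Zero
import Pool.Agent.Lib.MP_24384b_lc.Upper

/-! Deterministic partially blind versus general counter machines under constant reversals. -/

namespace Pool.Agent.Results.MP_24384b_lc.EqualIffNoReversals

open Pool.Agent.Lib.MP_24384b_lc

/-- For every choice `v` of the open conventions, the classes `L_Rc(QR-DPBLIND)` and
`L_Rc(QR-DCOUNTER)` are equal if and only if `c = 0`. If `c ≥ 1`, then some language over three
letters in `L_Rc(QR-DCOUNTER)` is in `L_Rc'(QR-DPBLIND)` for no number `c'`. -/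
theorem result (v : Conv) (c : ℕ) :
    ((∀ (α : Type) [Finite α], QRDPBlind v c α = QRDCounter v c α) ↔ c = 0) ∧
    (1 ≤ c → ∃ L ∈ QRDCounter v c (Fin 3), ∀ c' : ℕ, L ∉ QRDPBlind v c' (Fin 3)) := by
  refine ⟨?_, fun hc => ⟨LR v c W, ⟨W, W_deterministic, W_quasiRealtime, rfl⟩, ?_⟩⟩
  · constructor
    · intro h
      by_contra hc
      exact ne_of_pos v (Nat.one_le_iff_ne_zero.2 hc) (h (Fin 3))
    · rintro rfl α _
      exact eq_zero v α
  · rintro c' ⟨M, hb, hdet, hqr, hL⟩
    refine no_blind (c := c') hb hdet hqr (0 : Fin 3) 1 2 ?_ ?_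
    · intro n m
      rw [← hL]
      exact ⟨W_le_of_mem, W_mem_of_le hc⟩
    · intro n m
      rw [← hL]
      exact W_not_mem c n m

end Pool.Agent.Results.MP_24384b_lc.EqualIffNoReversals
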